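import Pool.Agent.TH152.CV.Hyp

/-!
MP_c6ff8d_ag, Q1: hyperbolicity and subvarieties of general type, for abelian covers of projective
space.
-/

set_option autoImplicit false

namespace Pool.Agent.Results.MP_c6ff8d_ag.AbelianCovers

open Pool.Agent.W602.Cov Pool.Agent.W602.Cov.Cover Pool.Agent.TH152.CV

/-- Let `X` be an abelian cover of projective `n`-space, with the equations
`y k ^ m k = ∏ i, ℓ i (x) ^ e k i` in a weighted projective space, where the `ℓ i` are any linear
forms and `n (n + 1) (n + 2) ∑ i, e k i < 2 m k` for all `k`. The following are equivalent: every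
entire curve in `X` is constant; all subvarieties of `X` of positive dimension are of general type;
there is no nonconstant morphism from the affine line to `X`; `X` has no split point. -/
theorem result {n q r : ℕ} {X : Cover n q r} (hB : Big X) (hF : X.Free) :
    [∀ x y, ¬ X.EntireCurve x y, AllGT X, ∀ P Q, ¬ RatCurve X P Q, ∀ v, ¬ X.Split v].TFAE := by
  obtain ⟨R, hR, h⟩ := hyperbolic_tfae n q
  have ht := h hB hF
  tfae_have 1 ↔ 2 := ht.out 6 5
  tfae_have 1 ↔ 3 := ht.out 6 4
  tfae_have 1 ↔ 4 := ht.out 6 0
  tfae_finish

end Pool.Agent.Results.MP_c6ff8d_ag.AbelianCovers
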