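import Mathlib
import Pool.Agent.TH710.ND.Lang

/-!
MP_c6ff8d_ag, Q1: Lang's conjecture for projective varieties given by nested sums of high powers of
linear forms, or of monomials.
-/

set_option autoImplicit false

namespace Pool.Agent.Results.MP_c6ff8d_ag.NestedLang

open FF MvPolynomial Pool.Agent.W602.GT Pool.Agent.H159R3.GGL
open Pool.Agent.TH710.ND (HighTowers)

/-- Let `X` be a complex projective variety given by forms which are nested sums of high powers of
linear forms, or nested sums of high powers of monomials: at each of at most `h + 1` levels there
are at most `s` summands, and the exponents are at least `(n + 1) (h + 1) (2 s + 1) ^ 5`. Then `X`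
contains no entire curve if and only if all its closed subvarieties of positive dimension are of
general type, and if and only if there are no nonconstant morphisms from the multiplicative group
to `X`. -/
theorem result {n : ℕ} {ι : Type} {F : ι → MvPolynomial (Fin (n + 1)) ℂ} {s N h : ℕ}
    (hF : HighTowers s N h F) (hN : (n + 1) * ((h + 1) * (2 * s + 1) ^ 5) ≤ N) :
    [∀ f, ¬ EntireCurve F f, AllGeneralType F, ∀ P, ¬ GmCurve F P].TFAE :=
  Pool.Agent.TH710.ND.lang_iff hF hN

end Pool.Agent.Results.MP_c6ff8d_ag.NestedLang
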