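import Mathlib
import Pool.Agent.TH409.FB.Fin

set_option autoImplicit false

/-!
# Sparse maps from curves to varieties without rational curves have bounded degree

Let `X` be a closed subset of complex projective `n`-space, given by forms of degree at most `d`.

* If `X` is Brody (equivalently Kobayashi) hyperbolic, then `X` contains no rational curve.
* If `X` contains no rational curve (for instance if every subvariety of `X` is of general type),
  then for every `r ≥ 1`, every smooth projective curve `B` with function field `L`, every `t ∈ L`, all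
  exponents `l_1, …, l_r` and all vectors `v_1, …, v_r` with coordinates in `L`: if the map
  `f : B → P^n` with homogeneous coordinates `x = ∑ t ^ (l_j) v_j` has image in `X`, then
  `deg f ≤ (1 + 8 (4 d) ^ r) d deg v`, where `deg v` is the degree of the map given by
  `(v_1 : … : v_r)`. The bound does not depend on `t`, on the exponents or on the genus.
* If `X` contains a rational curve, then for some `r` and some fixed exponents and constant vectors
  `v_j` (so that `deg v = 0`) the degrees of such maps are unbounded, for every curve `B`.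

The degree of the map with homogeneous coordinates `x` is `deg ℂ x`: minus the sum over the places
of `L` of the minimum of the orders of the nonzero coordinates.
-/

namespace Pool.Agent.Results.MP_c6ff8d_ag.SparseMapsBounded

open FF MvPolynomial Pool.Agent.TH409.SH Pool.Agent.TH409.FB Pool.Agent.H458.Sp

theorem result (n : ℕ) (GG : Set (MvPolynomial (Fin (n + 1)) ℂ)) (d : ℕ) (hd : 1 ≤ d)
    (hG : ∀ F ∈ GG, ∃ e, e ≤ d ∧ F.IsHomogeneous e) :
    (BrodyHyperbolic GG → NoRat GG) ∧
    (NoRat GG → ∀ r : ℕ, 1 ≤ r → ∀ (L : Type) [Field L] [Algebra ℂ L] [IsFF ℂ L] (t : L)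
      (l : Fin r → ℕ) (v : Fin r → Fin (n + 1) → L) (x : Fin (n + 1) → L), OnSparse t l v x →
      (∀ F ∈ GG, aeval x F = 0) →
      deg ℂ x ≤ (1 + 8 * (4 * d) ^ r) *
        (d * deg ℂ (fun q : Fin r × Fin (n + 1) => v q.1 q.2))) ∧
    (¬ NoRat GG → ∃ (r : ℕ) (l : Fin r → ℕ) (v : Fin r → Fin (n + 1) → ℂ),
      ∀ (L : Type) [Field L] [Algebra ℂ L] [IsFF ℂ L] (B : ℤ), ∃ (t : L) (x : Fin (n + 1) → L),
        OnSparse t l (fun j i => algebraMap ℂ L (v j i)) x ∧ (∀ F ∈ GG, aeval x F = 0) ∧
        B < deg ℂ x) :=
  ⟨fun hyp q hq i j a b => no_curveC' GG (fun F hF => by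
      obtain ⟨e, _, he⟩ := hG F hF
      exact ⟨e, he⟩) hyp q hq i j a b,
    fun hno r hr L _ _ _ t l v x hx hz => noRatF ℂ GG d hd hG hno hr L t l v x hx hz,
    fun h => ratF ℂ GG h⟩

end Pool.Agent.Results.MP_c6ff8d_ag.SparseMapsBounded
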